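import Pool.Agent.PCO.StmtsP

/-!
# PCO squad, row PZ3: the periodic triangle of a box
-/

set_option autoImplicit false

open Matrix Filter Topology

namespace Pool.Agent.PCO.H63

open Pool.Agent.PFS Pool.Agent.PFJ

/-- PZ3 -/
theorem pz3 (bf2 : Bf2Stmt) (bxm : BxmStmt) (bp3 : Bp3Stmt) (se3 : Se3Stmt) : Pz3Stmt := by
  intro n C Γ d hD U v hB hd
  obtain ⟨e, e', σ, nu, he, he', hind, hσ, hnu, h0, h1, h2, hne⟩ := bp3 n C Γ d hD U v hB hd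
  have hw : IsPES C Γ (![e, e', v] : Fin 3 → V n) :=
    (bf2 n C Γ hD.toCC hD.maxc U v hB).1 e e' he he' hind
  obtain ⟨-, -, -, hE, hEv, -, -⟩ := bxm n C Γ d hD U v hB hd
  have hext : ∀ i, Ext C ((![e, e', v] : Fin 3 → V n) i) := by
    intro i
    fin_cases i
    · exact hE e he
    · exact hE e' he'
    · exact hEv
  have hli := Pool.Agent.PFS.H60.lin n C hD.toPCone (Fin 3) _ hw.1
  obtain ⟨g1, g2⟩ := (Pool.Agent.PFS.H32.frz n C hD.toPCone (Fin 3) _ hli).mp hw.1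
  refine ⟨![e, e', v], hw, he.1, he'.1, rfl, hli, g1, g2, ?_, ?_⟩
  · intro m w' hw' k1 k2 k3
    have hwp : PES C w' :=
      (Pool.Agent.PFS.H32.frz n C hD.toPCone (Fin (m + 1)) w' hw').mpr ⟨k1, k2⟩
    exact Pool.Agent.PFJ.H83.mxe n C hD.toPCone 3 (by omega) _ hw.1 hext (m + 1) w' hwp k3
  · obtain ⟨χ, hχ, hχl⟩ := Pool.Agent.PFS.H81.chi 2
      {χ : Fin (2 + 1) → ℝ | ∃ γ ∈ Γ, ∀ i,
        act γ ((![e, e', v] : Fin 3 → V n) i) = Real.exp (χ i) • (![e, e', v] : Fin 3 → V n) i} (by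
        intro ℓ hℓ hs
        obtain ⟨γ, hγ, χ, h4, h5⟩ := se3 n C Γ d hD U v e e' σ nu hB hd he he' hind hσ hnu h0 h1 h2
          hne ℓ hℓ hs
        exact ⟨χ, ⟨γ, hγ, h4⟩, h5⟩)
    choose γ hγ hγχ using hχ
    exact Pool.Agent.PFS.H37.abeF n C Γ hD.toCC 2 _ hw γ χ hγ hγχ hχl

end Pool.Agent.PCO.H63
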